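import Pool.Agent.Helper70.RC.Goals

/-!
# Packet TW-RCBOT: a real closed field is algebraically closed in real closed extensions
-/

namespace Pool.Agent.Helper4.RC

open Polynomial Pool.Agent.Helper51.Lang.FTA

universe u v

theorem rcbot : Pool.Agent.Helper70.RC.RCBOT.{u, v} := by
  intro R M _ _ _ _ _ x hx
  have hint : IsIntegral R x := hx.isIntegral
  set p := minpoly R x with hp
  have hirr : Irreducible p := minpoly.irreducible hint
  have hmon : p.Monic := minpoly.monic hint
  have hdeg : p.natDegree ≤ 2 := irr2 R p hirr
  have hpos : 0 < p.natDegree := hirr.natDegree_pos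
  have hroot : aeval x p = 0 := minpoly.aeval R x
  have h12 : p.natDegree = 1 ∨ p.natDegree = 2 := by omega
  rcases h12 with h1 | h2
  · have hd1 : p.degree = 1 := by
      rw [degree_eq_natDegree hmon.ne_zero, h1]; rfl
    exact minpoly.mem_range_of_degree_eq_one R x hd1
  · exfalso
    -- p = X^2 + β X + γ
    set β := p.coeff 1 with hβ
    set γ := p.coeff 0 with hγ
    have hc2 : p.coeff 2 = 1 := by rw [← h2]; exact hmon.coeff_natDegree
    have heval : ∀ a : R, p.eval a = a ^ 2 + β * a + γ := by
      intro a
      rw [eval_eq_sum_range, h2]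
      simp [Finset.sum_range_succ, hc2]
      ring
    have haev : x ^ 2 + algebraMap R M β * x + algebraMap R M γ = 0 := by
      rw [← hroot, aeval_eq_sum_range, h2]
      simp [Finset.sum_range_succ, hc2, Algebra.smul_def]
      ring
    have hnoroot : ∀ a : R, p.eval a ≠ 0 := by
      intro a ha
      have := degree_eq_one_of_irreducible_of_root hirr ha
      rw [degree_eq_natDegree hmon.ne_zero, h2] at this
      norm_num at this
    have h2ne : (2 : R) ≠ 0 := by exact_mod_cast (two_ne_zero : (2 : ℕ) ≠ 0)
    have hnsq : ¬ IsSquare (β ^ 2 - 4 * γ) := by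
      rintro ⟨s, hs⟩
      apply hnoroot ((s - β) / 2)
      rw [heval]
      field_simp
      linear_combination (-1 : R) * hs
    rcases IsRealClosed.isSquare_or_isSquare_neg (β ^ 2 - 4 * γ) with h | ⟨s, hs⟩
    · exact hnsq h
    · have hs' := congrArg (algebraMap R M) hs
      simp only [map_neg, map_sub, map_mul, map_pow, map_ofNat] at hs'
      have hkey : (2 * x + algebraMap R M β) ^ 2 + (algebraMap R M s) ^ 2 = 0 := by
        linear_combination 4 * haev - hs'
      have hs0 := (add_sq_eq_zero hkey).2
      have hs1 : s = 0 := (algebraMap R M).injective (hs0.trans (map_zero _).symm)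
      apply hnsq
      refine ⟨0, ?_⟩
      rw [hs1] at hs
      linear_combination (-1 : R) * hs

end Pool.Agent.Helper4.RC
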